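import Pool.Agent.Helper30.Guenin.ApexHom

/-!
Guenin's question on consistent signed graphs, for the signed graphs with a vertex `u` such that
`G - u` maps to the unbalanced cycle of length `k`.
-/

namespace Pool.Agent.Results.MP_32cceb_co.ApexCycle

open Pool.Agent.Helper30.Guenin

/-- Let `G` be a consistent signed graph of unbalanced girth `k`, let `d + 1 ≤ k` have the parity
of `k` (for instance `d + 1 = k`), and suppose that `G - u` admits a homomorphism to the
unbalanced cycle of length `d + 1`. Then `G` admits a homomorphism to the signed projective cube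
of dimension `d`. -/
theorem result {V E : Type*} (G : SGraph V E) (k d : ℕ) [NeZero d] (hc : G.Consistent)
    (hg : G.UnbGirth k) (hdk : d + 1 ≤ k) (hpar : (d + 1) % 2 = k % 2) (u : V)
    (hu : (G.del u).MapsTo (negCycle d)) : G.MapsTo (SPC d) :=
  apex_mapsTo G k d hc hg hdk hpar u hu

end Pool.Agent.Results.MP_32cceb_co.ApexCycle
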