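import Pool.Agent.Helper30.Guenin.Hom

/-!
Guenin's question on consistent signed graphs, for the class `Built`: signed graphs built from
pieces with at most four vertices and pieces with a vertex whose deletion leaves a signed graph
with a winding function, by sums along at most three vertices and by attaching balanced sides at
two or three vertices.
-/

namespace Pool.Agent.Results.MP_32cceb_co.SumClass

open Pool.Agent.Helper30.Guenin

/-- Every consistent signed graph of unbalanced girth `d + 1` in the class `Built` admits a
homomorphism to the signed projective cube of dimension `d`. -/
theorem result {V E : Type*} [Finite V] (G : SGraph V E) (d : ℕ) [NeZero d]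
    (hc : G.Consistent) (hg : G.UnbGirth (d + 1)) (hB : Built Set.univ G.Adj) :
    G.MapsTo (SPC d) :=
  built_mapsTo G d hc hg hB

end Pool.Agent.Results.MP_32cceb_co.SumClass
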